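import Mathlib

/-!
# Product sets capturing shifted product sets: Q1 is false

For all `c₃, c₄, δ > 0` and every finite set `B` of positive integers with `|BB|` large enough,
there is a modulus `M ≥ 1` such that for every `t ≥ 1` the dilate `A = M t B`
(which has `|AA| = |BB|`) has no pair `E, F` with the four required properties.
-/

open scoped Pointwise

namespace Pool.Agent.Results.MP_fd999f_co.DilatesNotCaptured

/-- If the members of `E'` are pairwise coprime and at least `2`, and all members of `F'` are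
positive, then `|E'| * |F'| ≤ |E' F'| + |F'|^2`. -/
lemma card_mul_ge (E' : Finset ℕ) (hE : ∀ x ∈ E', 2 ≤ x)
    (hco : ∀ x ∈ E', ∀ y ∈ E', x ≠ y → Nat.Coprime x y) :
    ∀ F' : Finset ℕ, (∀ f ∈ F', 0 < f) →
      F'.card * E'.card ≤ (E' * F').card + F'.card * F'.card := by
  classical
  intro F'
  induction F' using Finset.induction_on with
  | empty => intro _; simp
  | insert f F'' hf ih =>
    intro hpos
    have hfpos : 0 < f := hpos f (Finset.mem_insert_self _ _)
    have hpos'' : ∀ g ∈ F'', 0 < g := fun g hg => hpos g (Finset.mem_insert_of_mem hg)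
    have ih' := ih hpos''
    -- the new piece
    have hsub : (E' * F'') ∪ (E'.image (fun e => e * f)) ⊆ E' * (insert f F'') := by
      intro x hx
      rcases Finset.mem_union.mp hx with h | h
      · obtain ⟨e, he, g, hg, rfl⟩ := Finset.mem_mul.mp h
        exact Finset.mul_mem_mul he (Finset.mem_insert_of_mem hg)
      · obtain ⟨e, he, rfl⟩ := Finset.mem_image.mp h
        exact Finset.mul_mem_mul he (Finset.mem_insert_self _ _)
    have hinj : (E'.image (fun e => e * f)).card = E'.card := by
      apply Finset.card_image_of_injective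
      intro a b hab
      exact Nat.eq_of_mul_eq_mul_right hfpos hab
    -- the intersection is small
    have hint : ((E'.image (fun e => e * f)) ∩ (E' * F'')).card ≤ F''.card := by
      -- every element e f of the intersection equals e' g with g ∈ F'' and e = g / gcd f g
      have hsub2 : ((E'.image (fun e => e * f)) ∩ (E' * F'')) ⊆
          F''.image (fun g => (g / Nat.gcd f g) * f) := by
        intro x hx
        obtain ⟨hx1, hx2⟩ := Finset.mem_inter.mp hx
        obtain ⟨e, he, hef⟩ := Finset.mem_image.mp hx1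
        obtain ⟨e', he', g, hg, heg⟩ := Finset.mem_mul.mp hx2
        have hgpos : 0 < g := hpos'' g hg
        have hfg : f ≠ g := by
          intro h; exact hf (h ▸ hg)
        have heq : e * f = e' * g := by rw [hef, heg]
        have hne : e ≠ e' := by
          intro h
          subst h
          exact hfg (Nat.eq_of_mul_eq_mul_left (by have := hE e he; omega) heq)
        have hc : Nat.Coprime e e' := hco e he e' he' hne
        -- e ∣ g
        have h1 : e ∣ g := by
          have : e ∣ e' * g := ⟨f, by rw [← heq]⟩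
          exact hc.dvd_of_dvd_mul_left this
        obtain ⟨k, hk⟩ := h1
        have hepos : 0 < e := by have := hE e he; omega
        have hf2 : f = e' * k := by
          have : e * f = e * (e' * k) := by rw [heq, hk]; ring
          exact Nat.eq_of_mul_eq_mul_left hepos this
        have hkpos : 0 < k := by
          rcases Nat.eq_zero_or_pos k with h | h
          · subst h; simp at hk; omega
          · exact h
        have hgcd : Nat.gcd f g = k := by
          rw [hf2, hk, Nat.mul_comm e' k, Nat.mul_comm e k, Nat.gcd_mul_left]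
          have : Nat.gcd e' e = 1 := hc.symm
          rw [this]; simp
        refine Finset.mem_image.mpr ⟨g, hg, ?_⟩
        rw [hgcd, ← hef]
        congr 1
        rw [hk]
        exact Nat.mul_div_cancel _ hkpos
      exact (Finset.card_le_card hsub2).trans Finset.card_image_le
    have hunion := Finset.card_union_add_card_inter (E' * F'') (E'.image (fun e => e * f))
    rw [Finset.inter_comm] at hunion
    have hle := Finset.card_le_card hsub
    rw [Finset.card_insert_of_notMem hf]
    nlinarith [hunion, hle, hint, hinj, ih']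

/-- The main counting step: a product set `EF` with `|E|, |F| > K` contains few members of a set
`S` of pairwise coprime integers `≥ 2`. -/
lemma capture_bound (S E F : Finset ℕ) (K : ℕ) (hS : ∀ x ∈ S, 2 ≤ x)
    (hco : ∀ x ∈ S, ∀ y ∈ S, x ≠ y → Nat.Coprime x y)
    (hE : K + 1 ≤ E.card) (hF : K + 1 ≤ F.card) :
    K * (S ∩ (E * F)).card ≤ 2 * ((E * F).card + K * K) := by
  classical
  -- one-sided statement
  have key : ∀ (P Q : Finset ℕ) (W : Finset ℕ), K + 1 ≤ Q.card → W ⊆ S →
      (∀ s ∈ W, ∃ e ∈ P, ∃ f ∈ Q, e * f = s ∧ 2 ≤ e) →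
      K * W.card ≤ (P * Q).card + K * K := by
    intro P Q W hQ hWS hW
    choose! e he f hf hef using hW
    -- the set of first factors
    have hinj : Set.InjOn e W := by
      intro s hs s' hs' hss
      by_contra hne
      have hc := hco s (hWS hs) s' (hWS hs') hne
      have h1 : e s ∣ s := ⟨f s, (hef s hs).1.symm⟩
      have h2 : e s ∣ s' := by rw [hss]; exact ⟨f s', (hef s' hs').1.symm⟩
      have h3 := Nat.dvd_gcd h1 h2
      rw [hc] at h3
      have := Nat.le_of_dvd Nat.one_pos h3
      have := (hef s hs).2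
      omega
    have hcard : (W.image e).card = W.card := Finset.card_image_of_injOn hinj
    obtain ⟨F', hF'sub, hF'card⟩ : ∃ F' ⊆ Q.erase 0, F'.card = K := by
      apply Finset.exists_subset_card_eq
      have := Finset.pred_card_le_card_erase (s := Q) (a := 0)
      omega
    have h := card_mul_ge (W.image e) ?_ ?_ F' ?_
    · rw [hF'card, hcard] at h
      refine h.trans ?_
      have : (W.image e * F').card ≤ (P * Q).card := by
        apply Finset.card_le_card
        apply Finset.mul_subset_mul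
        · intro x hx
          obtain ⟨s, hs, rfl⟩ := Finset.mem_image.mp hx
          exact he s hs
        · exact hF'sub.trans (Finset.erase_subset _ _)
      omega
    · intro x hx
      obtain ⟨s, hs, rfl⟩ := Finset.mem_image.mp hx
      exact (hef s hs).2
    · intro x hx y hy hxy
      obtain ⟨s, hs, rfl⟩ := Finset.mem_image.mp hx
      obtain ⟨s', hs', rfl⟩ := Finset.mem_image.mp hy
      have hne : s ≠ s' := fun h => hxy (by rw [h])
      have hc := hco s (hWS hs) s' (hWS hs') hne
      exact Nat.Coprime.coprime_dvd_left ⟨f s, (hef s hs).1.symm⟩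
        (Nat.Coprime.coprime_dvd_right ⟨f s', (hef s' hs').1.symm⟩ hc)
    · intro g hg
      have := hF'sub hg
      exact Nat.pos_of_ne_zero (Finset.ne_of_mem_erase this)
  -- split S ∩ EF according to which factor is at least 2
  set W₁ := (S ∩ (E * F)).filter (fun s => ∃ e ∈ E, ∃ f ∈ F, e * f = s ∧ 2 ≤ e) with hW₁
  set W₂ := (S ∩ (E * F)).filter (fun s => ∃ f ∈ F, ∃ e ∈ E, f * e = s ∧ 2 ≤ f) with hW₂
  have hcover : (S ∩ (E * F)) ⊆ W₁ ∪ W₂ := by
    intro s hs
    obtain ⟨hs1, hs2⟩ := Finset.mem_inter.mp hs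
    obtain ⟨e, he, f, hf, hef⟩ := Finset.mem_mul.mp hs2
    have hs2' := hS s hs1
    rcases Nat.lt_or_ge e 2 with h | h
    · -- then f ≥ 2
      apply Finset.mem_union_right
      rw [hW₂, Finset.mem_filter]
      refine ⟨hs, f, hf, e, he, by rw [Nat.mul_comm]; exact hef, ?_⟩
      interval_cases e
      · simp at hef; omega
      · omega
    · apply Finset.mem_union_left
      rw [hW₁, Finset.mem_filter]
      exact ⟨hs, e, he, f, hf, hef, h⟩
  have h1 : K * W₁.card ≤ (E * F).card + K * K := by
    apply key E F W₁ hF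
    · exact (Finset.filter_subset _ _).trans Finset.inter_subset_left
    · intro s hs
      exact (Finset.mem_filter.mp hs).2
  have h2 : K * W₂.card ≤ (E * F).card + K * K := by
    have := key F E W₂ hE
      ((Finset.filter_subset _ _).trans Finset.inter_subset_left)
      (fun s hs => (Finset.mem_filter.mp hs).2)
    rwa [mul_comm F E] at this
  have h3 : (S ∩ (E * F)).card ≤ W₁.card + W₂.card :=
    (Finset.card_le_card hcover).trans (Finset.card_union_le _ _)
  nlinarith [h1, h2, h3]

/-- Dilating by a common multiple of all differences makes the shifted product set pairwise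
coprime. -/
lemma coprime_shift (m t b b' : ℕ) (hbb : b < b') (hm : (b' - b) ∣ m) :
    Nat.Coprime (m * t * (m * t) * b + 1) (m * t * (m * t) * b' + 1) := by
  set g := Nat.gcd (m * t * (m * t) * b + 1) (m * t * (m * t) * b' + 1) with hg
  have h1 : g ∣ m * t * (m * t) * b + 1 := Nat.gcd_dvd_left _ _
  have h2 : g ∣ m * t * (m * t) * b' + 1 := Nat.gcd_dvd_right _ _
  -- g divides b' - b
  have h3 : (g : ℤ) ∣ ((b' : ℤ) - b) := by
    have e1 : (g : ℤ) ∣ ((m * t * (m * t) * b + 1 : ℕ) : ℤ) := by exact_mod_cast h1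
    have e2 : (g : ℤ) ∣ ((m * t * (m * t) * b' + 1 : ℕ) : ℤ) := by exact_mod_cast h2
    have e3 := dvd_sub (e1.mul_left (b' : ℤ)) (e2.mul_left (b : ℤ))
    have e4 : ((b' : ℤ) * ((m * t * (m * t) * b + 1 : ℕ) : ℤ)
        - (b : ℤ) * ((m * t * (m * t) * b' + 1 : ℕ) : ℤ)) = (b' : ℤ) - b := by
      push_cast; ring
    rwa [e4] at e3
  have h4 : g ∣ b' - b := by
    have : ((b' - b : ℕ) : ℤ) = (b' : ℤ) - b := by
      rw [Nat.cast_sub hbb.le]
    rw [← this] at h3
    exact_mod_cast h3
  have h5 : g ∣ m := h4.trans hm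
  have h6 : g ∣ m * t * (m * t) * b := by
    have : m * t * (m * t) * b = m * (t * (m * t) * b) := by ring
    rw [this]
    exact h5.mul_right _
  have h7 : g ∣ 1 := (Nat.dvd_add_right h6).mp h1
  exact Nat.dvd_one.mp h7

theorem result (c₃ c₄ δ : ℝ) (hc₃ : 0 < c₃) (hc₄ : 0 < c₄) (hδ : 0 < δ) :
    ∃ N : ℕ, ∀ B : Finset ℕ, (∀ b ∈ B, 0 < b) → N ≤ (B * B).card →
      ∃ M : ℕ, 0 < M ∧ ∀ t : ℕ, 0 < t → ∀ A : Finset ℕ, A = B.image (fun b => M * t * b) →
        (A * A).card = (B * B).card ∧
        ¬ ∃ E F : Finset ℕ,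
            ((A * A).card : ℝ) ^ δ ≤ (E.card : ℝ) ∧
            ((A * A).card : ℝ) ^ δ ≤ (F.card : ℝ) ∧
            ((E * F).card : ℝ) ≤ c₃ * ((A * A).card : ℝ) ∧
            c₄ * ((A * A).card : ℝ) ≤ ((((A * A).image (fun x => x + 1)) ∩ (E * F)).card : ℝ) := by
  classical
  -- the constant K
  obtain ⟨K, hK⟩ : ∃ K : ℕ, 4 * c₃ / c₄ + 1 ≤ (K : ℝ) := exists_nat_ge _
  have hKc : 4 * c₃ < c₄ * K := by
    have h : 4 * c₃ / c₄ < (K : ℝ) := by linarith
    rw [div_lt_iff₀ hc₄] at h
    linarith
  have hKpos : (0 : ℝ) < K := by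
    have : 0 < 4 * c₃ / c₄ := by positivity
    linarith
  -- n^δ is eventually at least K+1
  have hlim : Filter.Tendsto (fun n : ℕ => ((n : ℝ) ^ δ)) Filter.atTop Filter.atTop :=
    (tendsto_rpow_atTop hδ).comp tendsto_natCast_atTop_atTop
  obtain ⟨N₁, hN₁⟩ := Filter.eventually_atTop.mp
    (hlim.eventually (Filter.eventually_ge_atTop ((K : ℝ) + 1)))
  obtain ⟨N₂, hN₂⟩ : ∃ N₂ : ℕ, 4 * (K : ℝ) / c₄ + 1 ≤ (N₂ : ℝ) := exists_nat_ge _
  refine ⟨max N₁ N₂, ?_⟩
  intro B hB hBN
  refine ⟨((B * B).sup id).factorial, Nat.factorial_pos _, ?_⟩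
  intro t ht A hA
  set M := ((B * B).sup id).factorial with hM
  have hMpos : 0 < M := Nat.factorial_pos _
  have hMt : 0 < M * t := Nat.mul_pos hMpos ht
  -- AA is the dilate of BB
  have hAA : A * A = (B * B).image (fun b => M * t * (M * t) * b) := by
    ext x
    constructor
    · intro hx
      obtain ⟨a, ha, a', ha', rfl⟩ := Finset.mem_mul.mp hx
      rw [hA] at ha ha'
      obtain ⟨b, hb, rfl⟩ := Finset.mem_image.mp ha
      obtain ⟨b', hb', rfl⟩ := Finset.mem_image.mp ha'
      exact Finset.mem_image.mpr ⟨b * b', Finset.mul_mem_mul hb hb', by ring⟩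
    · intro hx
      obtain ⟨y, hy, rfl⟩ := Finset.mem_image.mp hx
      obtain ⟨b, hb, b', hb', rfl⟩ := Finset.mem_mul.mp hy
      have h1 : M * t * b ∈ A := by rw [hA]; exact Finset.mem_image_of_mem _ hb
      have h2 : M * t * b' ∈ A := by rw [hA]; exact Finset.mem_image_of_mem _ hb'
      have : M * t * (M * t) * (b * b') = (M * t * b) * (M * t * b') := by ring
      rw [this]
      exact Finset.mul_mem_mul h1 h2
  have hcard : (A * A).card = (B * B).card := by
    rw [hAA]
    apply Finset.card_image_of_injective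
    intro x y hxy
    exact Nat.eq_of_mul_eq_mul_left (Nat.mul_pos hMt hMt) hxy
  refine ⟨hcard, ?_⟩
  rintro ⟨E, F, hE, hF, hEF, hcap⟩
  set S := (A * A).image (fun x => x + 1) with hS
  set n := (A * A).card with hn
  have hnN : max N₁ N₂ ≤ n := by rw [hcard]; exact hBN
  have hn1 : (K : ℝ) + 1 ≤ (n : ℝ) ^ δ := hN₁ n (le_trans (le_max_left _ _) hnN)
  have hE' : K + 1 ≤ E.card := by
    have : ((K + 1 : ℕ) : ℝ) ≤ (E.card : ℝ) := by push_cast; linarith
    exact_mod_cast this
  have hF' : K + 1 ≤ F.card := by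
    have : ((K + 1 : ℕ) : ℝ) ≤ (F.card : ℝ) := by push_cast; linarith
    exact_mod_cast this
  have hn2 : 4 * (K : ℝ) / c₄ + 1 ≤ (n : ℝ) := by
    have : ((N₂ : ℕ) : ℝ) ≤ (n : ℝ) := by
      exact_mod_cast le_trans (le_max_right _ _) hnN
    linarith
  have hn3 : 4 * (K : ℝ) < c₄ * n := by
    have h : 4 * (K : ℝ) / c₄ < (n : ℝ) := by linarith
    rw [div_lt_iff₀ hc₄] at h
    linarith
  have hbound := capture_bound S E F K ?_ ?_ hE' hF'
  · have hb : (K : ℝ) * ((S ∩ (E * F)).card : ℝ) ≤ 2 * (((E * F).card : ℝ) + K * K) := by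
      exact_mod_cast hbound
    have h1 : (K : ℝ) * (c₄ * n) ≤ (K : ℝ) * ((S ∩ (E * F)).card : ℝ) :=
      mul_le_mul_of_nonneg_left hcap hKpos.le
    have hnpos : (0 : ℝ) < n := by
      have : 0 < 4 * (K : ℝ) / c₄ := by positivity
      linarith
    -- K c₄ n ≤ 2 c₃ n + 2 K^2, while K c₄ n > 4 c₃ n and K c₄ n > 4 K^2
    have h2 : (4 * c₃) * n < (c₄ * K) * n := mul_lt_mul_of_pos_right hKc hnpos
    have h3 : K * (4 * (K : ℝ)) < K * (c₄ * n) := mul_lt_mul_of_pos_left hn3 hKpos
    nlinarith [hb, h1, h2, h3, hEF]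
  · intro x hx
    rw [hS] at hx
    obtain ⟨y, hy, rfl⟩ := Finset.mem_image.mp hx
    rw [hAA] at hy
    obtain ⟨z, hz, rfl⟩ := Finset.mem_image.mp hy
    obtain ⟨b, hb, b', hb', rfl⟩ := Finset.mem_mul.mp hz
    have h1 := hB b hb
    have h2 := hB b' hb'
    have : 0 < M * t * (M * t) * (b * b') := by positivity
    omega
  · intro x hx y hy hxy
    rw [hS, hAA] at hx hy
    obtain ⟨x', hx', rfl⟩ := Finset.mem_image.mp hx
    obtain ⟨z, hz, rfl⟩ := Finset.mem_image.mp hx'
    obtain ⟨y', hy', rfl⟩ := Finset.mem_image.mp hy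
    obtain ⟨w, hw, rfl⟩ := Finset.mem_image.mp hy'
    have hzw : z ≠ w := fun h => hxy (by rw [h])
    have hle : ∀ u ∈ B * B, u ≤ (B * B).sup id := fun u hu => Finset.le_sup (f := id) hu
    rcases Nat.lt_or_gt_of_ne hzw with h | h
    · refine coprime_shift M t z w h ?_
      exact Nat.dvd_factorial (Nat.sub_pos_of_lt h) ((Nat.sub_le _ _).trans (hle w hw))
    · refine (coprime_shift M t w z h ?_).symm
      exact Nat.dvd_factorial (Nat.sub_pos_of_lt h) ((Nat.sub_le _ _).trans (hle z hz))

end Pool.Agent.Results.MP_fd999f_co.DilatesNotCaptured
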